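import Mathlib
import Pool.Agent.W2helper83.BT.Defs5
import Pool.Agent.W2helper92.BT2.Loc
import Pool.Agent.W2helper12.BT5.Locha

/-!
# Project BT5, piece LOCHB: the places where `c` has no pole
-/

set_option autoImplicit false

namespace Pool.Agent.W2helper28.BT5

open Pool.Agent.W2helper83.BT Pool.Agent.W2helper92.BT2 Pool.Agent.W2helper12.BT5 Polynomial

section

variable {K Γ : Type} [Field K] [LinearOrderedCommGroupWithZero Γ] (W : Valuation K Γ)

lemma val_geom {a b : K} {R : Γ} (ha : W a ≤ R) (hb : W b ≤ R) (i : ℕ) :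
    W (∑ j ∈ Finset.range i, a ^ j * b ^ (i - 1 - j)) ≤ R ^ (i - 1) := by
  refine W.map_sum_le fun j hj => ?_
  have hj' : j < i := Finset.mem_range.1 hj
  rw [map_mul, map_pow, map_pow]
  calc W a ^ j * W b ^ (i - 1 - j) ≤ R ^ j * R ^ (i - 1 - j) :=
        mul_le_mul' (pow_le_pow_left' ha _) (pow_le_pow_left' hb _)
    _ = R ^ (i - 1) := by rw [← pow_add]; congr 1; omega

lemma val_diff_le {H : K[X]} (hc : ∀ i, W (H.coeff i) ≤ 1) {a b : K} {R : Γ} (hR : 1 ≤ R)
    (ha : W a ≤ R) (hb : W b ≤ R) :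
    W (H.eval a - H.eval b) ≤ R ^ (H.natDegree - 1) * W (a - b) := by
  rw [eval_eq_sum_range, eval_eq_sum_range, ← Finset.sum_sub_distrib]
  refine W.map_sum_le fun i hi => ?_
  have hi' : i ≤ H.natDegree := Nat.lt_succ_iff.1 (Finset.mem_range.1 hi)
  rw [← mul_sub, ← geom_sum₂_mul, map_mul, map_mul]
  calc W (H.coeff i) * (W (∑ j ∈ Finset.range i, a ^ j * b ^ (i - 1 - j)) * W (a - b))
      ≤ 1 * (R ^ (H.natDegree - 1) * W (a - b)) := by
        refine mul_le_mul' (hc i) (mul_le_mul' ?_ le_rfl)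
        exact (val_geom W ha hb i).trans (pow_le_pow_right₀ hR (by omega))
    _ = R ^ (H.natDegree - 1) * W (a - b) := one_mul _

lemma fH_small {d : ℕ} {c : K} {H : K[X]}
    (hcf : ∀ i, W (H.coeff i) ≤ 1) (hc : W c ≤ 1) {t : K} (ht : W t ≤ 1) :
    W (fH d c H t) ≤ 1 := by
  rw [fH, map_mul]
  refine mul_le_one' hc (val_eval_le W hcf ?_)
  rw [map_pow]
  exact pow_le_one₀ zero_le ht

lemma fH_big {d : ℕ} (hd : 2 ≤ d) {c : K} {H : K[X]} (hH : H.Monic)
    (hcf : ∀ i, W (H.coeff i) ≤ 1) (hdeg : 1 ≤ H.natDegree) {t : K} (ht : 1 < W t) :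
    W (fH d c H t) = W c * W t ^ (d * H.natDegree - 1) * W t := by
  have ht' : 1 < W (t ^ d) := by
    rw [map_pow]
    exact one_lt_pow₀ ht (by omega)
  have hq : 0 < d * H.natDegree := Nat.mul_pos (by omega) hdeg
  rw [fH, map_mul, val_eval_big W hH hcf ht', map_pow, ← pow_mul, mul_assoc, ← pow_succ,
    Nat.sub_add_cancel hq]

/-- the values along a periodic orbit -/
lemma per_val {d : ℕ} (hd : 2 ≤ d) {c : K} {H : K[X]} (hH : H.Monic)
    (hcf : ∀ i, W (H.coeff i) ≤ 1) (hc : W c ≤ 1) (hc0 : W c ≠ 0) (hdeg : 1 ≤ H.natDegree)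
    {z : K} {N : ℕ} (hN : 0 < N) (hz : (fH d c H)^[N] z = z) (h1 : 1 < W z) :
    W c * W z ^ (d * H.natDegree - 1) = 1 ∧ W (fH d c H z) = W z := by
  have hz0 : 0 < W z := zero_lt_one.trans h1
  have hkey : W c * W z ^ (d * H.natDegree - 1) = 1 := by
    rcases lt_trichotomy (W c * W z ^ (d * H.natDegree - 1)) 1 with h | h | h
    · exfalso
      have hst : ∀ t : K, W t ≤ W z → W (fH d c H t) < W z := by
        intro t ht
        rcases le_or_gt (W t) 1 with h2 | h2
        · exact (fH_small W hcf hc h2).trans_lt h1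
        · rw [fH_big W hd hH hcf hdeg h2]
          calc W c * W t ^ (d * H.natDegree - 1) * W t
              ≤ W c * W z ^ (d * H.natDegree - 1) * W z :=
                mul_le_mul' (mul_le_mul' le_rfl (pow_le_pow_left' ht _)) ht
            _ < 1 * W z := by gcongr
            _ = W z := one_mul _
      have hind : ∀ k : ℕ, W ((fH d c H)^[k + 1] z) < W z := by
        intro k
        induction k with
        | zero => exact hst z le_rfl
        | succ k ih =>
          rw [Function.iterate_succ_apply' _ (k + 1)]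
          exact hst _ ih.le
      have := hind (N - 1)
      rw [Nat.sub_add_cancel hN, hz] at this
      exact absurd this (lt_irrefl _)
    · exact h
    · exfalso
      have hst : ∀ t : K, W z ≤ W t → W z < W (fH d c H t) := by
        intro t ht
        rw [fH_big W hd hH hcf hdeg (h1.trans_le ht)]
        calc W z = 1 * W z := (one_mul _).symm
          _ < W c * W z ^ (d * H.natDegree - 1) * W z := by gcongr
          _ ≤ W c * W t ^ (d * H.natDegree - 1) * W t :=
                mul_le_mul' (mul_le_mul' le_rfl (pow_le_pow_left' ht _)) ht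
      have hind : ∀ k : ℕ, W z < W ((fH d c H)^[k + 1] z) := by
        intro k
        induction k with
        | zero => exact hst z le_rfl
        | succ k ih =>
          rw [Function.iterate_succ_apply' _ (k + 1)]
          exact hst _ ih.le
      have := hind (N - 1)
      rw [Nat.sub_add_cancel hN, hz] at this
      exact absurd this (lt_irrefl _)
  refine ⟨hkey, ?_⟩
  rw [fH_big W hd hH hcf hdeg h1, hkey, one_mul]

end

lemma core_b {K L Γ : Type} [Field K] [Field L] [Algebra K L]
    [LinearOrderedCommGroupWithZero Γ] (w : Valuation L Γ) {d : ℕ} (hd : 2 ≤ d) {c : K}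
    {H : K[X]} (hcf : ∀ i, w (algebraMap K L (H.coeff i)) ≤ 1) (hdeg : 1 ≤ H.natDegree)
    {R : Γ} (hR : 1 ≤ R) (hcR : w (algebraMap K L c) * R ^ (d * H.natDegree - 1) ≤ 1)
    {z : L} (hz : IsPrimitiveRoot z d) {x y : K} {N : ℕ} (hN : 0 < N)
    (hx : (fH d c H)^[N] x = x) (hy : (fH d c H)^[N] y = y) (hxy : x ≠ y)
    (hux : ∀ k, w (algebraMap K L ((fH d c H)^[k] x)) ≤ R)
    (huy : ∀ k, w (algebraMap K L ((fH d c H)^[k] y)) ≤ R)
    {ζ : L} (h : ζ ^ d = 1) (h1 : ζ ≠ 1) :
    w (algebraMap K L x - ζ * algebraMap K L y) = R := by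
  classical
  have hd0 : 0 < d := by omega
  have hRpos : 0 < R := zero_lt_one.trans_le hR
  set W : Valuation K Γ := w.comap (algebraMap K L) with hW
  have hWa : ∀ a : K, w (algebraMap K L a) = W a := fun _ => rfl
  simp only [hWa] at hcf hcR hux huy
  set u : ℕ → K := fun k => (fH d c H)^[k] x with hu
  set v : ℕ → K := fun k => (fH d c H)^[k] y with hv
  have hux' : ∀ k, W (u k) ≤ R := hux
  have huy' : ∀ k, W (v k) ≤ R := huy
  have hus : ∀ k, u (k + 1) = fH d c H (u k) := fun k => Function.iterate_succ_apply' _ _ _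
  have hvs : ∀ k, v (k + 1) = fH d c H (v k) := fun k => Function.iterate_succ_apply' _ _ _
  have huN : u N = u 0 := hx
  have hvN : v N = v 0 := hy
  have huv : ∀ k, u k ≠ v k := fun k => it_ne hN hx hy hxy k
  have hle : ∀ (k : ℕ) (η : L), η ^ d = 1 →
      w (algebraMap K L (u k) - η * algebraMap K L (v k)) ≤ R := by
    intro k η hη
    refine (w.map_sub _ _).trans ?_
    rw [map_mul, val_root w hd0.ne' hη, hWa, hWa, one_mul]
    exact max_le (hux' k) (huy' k)
  have hmem : ∀ η : L, η ∈ nthRootsFinset d (1 : L) ↔ η ^ d = 1 := fun η =>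
    mem_nthRootsFinset hd0 1
  have hprod : ∀ k, W (u k ^ d - v k ^ d) ≤ W (u k - v k) *
      w (algebraMap K L (u k) - ζ * algebraMap K L (v k)) * R ^ (d - 2) := by
    intro k
    have h3 := val_prod w hd0 hz (algebraMap K L (u k)) (algebraMap K L (v k))
    have hm1 : (1 : L) ∈ nthRootsFinset d (1 : L) := (hmem 1).2 (one_pow d)
    have hmζ : ζ ∈ (nthRootsFinset d (1 : L)).erase 1 := Finset.mem_erase.2 ⟨h1, (hmem ζ).2 h⟩
    rw [← map_pow, ← map_pow, ← map_sub, hWa, ← Finset.mul_prod_erase _ _ hm1,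
      ← Finset.mul_prod_erase _ _ hmζ, one_mul, ← map_sub, hWa] at h3
    rw [h3, mul_assoc]
    refine mul_le_mul' le_rfl (mul_le_mul' le_rfl ?_)
    have h4 := Finset.prod_le_pow_card (((nthRootsFinset d (1 : L)).erase 1).erase ζ)
      (fun η => w (algebraMap K L (u k) - η * algebraMap K L (v k))) R (fun η hη =>
        hle k η ((hmem η).1 (Finset.mem_of_mem_erase (Finset.mem_of_mem_erase hη))))
    rw [Finset.card_erase_of_mem hmζ, Finset.card_erase_of_mem hm1, hz.card_nthRootsFinset] at h4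
    exact h4
  have hstep : ∀ k, W (u (k + 1) - v (k + 1)) * R ≤ W (u k - v k) *
      w (algebraMap K L (u k) - ζ * algebraMap K L (v k)) := by
    intro k
    have hX : W (u k ^ d) ≤ R ^ d := by rw [map_pow]; exact pow_le_pow_left' (hux' k) _
    have hY : W (v k ^ d) ≤ R ^ d := by rw [map_pow]; exact pow_le_pow_left' (huy' k) _
    have h5 := val_diff_le W hcf (one_le_pow₀ (n := d) hR) hX hY
    have h6 : W (u (k + 1) - v (k + 1)) = W c * W (H.eval (u k ^ d) - H.eval (v k ^ d)) := by
      rw [hus, hvs, fH, fH, ← mul_sub, map_mul]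
    rw [h6]
    calc W c * W (H.eval (u k ^ d) - H.eval (v k ^ d)) * R
        ≤ W c * ((R ^ d) ^ (H.natDegree - 1) * (W (u k - v k) *
          w (algebraMap K L (u k) - ζ * algebraMap K L (v k)) * R ^ (d - 2))) * R :=
          mul_le_mul' (mul_le_mul' le_rfl (h5.trans (mul_le_mul' le_rfl (hprod k)))) le_rfl
      _ = (W c * R ^ (d * H.natDegree - 1)) * (W (u k - v k) *
          w (algebraMap K L (u k) - ζ * algebraMap K L (v k))) := by
          have e1 : d * H.natDegree - 1 = d * (H.natDegree - 1) + (d - 2) + 1 := by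
            obtain ⟨m, hm⟩ := Nat.exists_eq_add_of_le' hdeg
            rw [hm, Nat.add_sub_cancel, Nat.mul_succ]
            omega
          rw [e1, pow_succ, pow_add, pow_mul]
          ac_rfl
      _ ≤ 1 * (W (u k - v k) *
          w (algebraMap K L (u k) - ζ * algebraMap K L (v k))) := mul_le_mul' hcR le_rfl
      _ = _ := one_mul _
  have hanti : Antitone fun k => W (u k - v k) := by
    refine antitone_nat_of_succ_le fun k => ?_
    have h7 : W (u (k + 1) - v (k + 1)) * R ≤ W (u k - v k) * R :=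
      (hstep k).trans (mul_le_mul' le_rfl (hle k ζ h))
    exact le_of_mul_le_mul_right h7 hRpos
  have h8 : W (u 0 - v 0) ≤ W (u 1 - v 1) := by
    have := hanti (show 1 ≤ N from hN)
    simp only [huN, hvN] at this
    exact this
  have h9 : W (u 0 - v 0) * R ≤ W (u 0 - v 0) *
      w (algebraMap K L (u 0) - ζ * algebraMap K L (v 0)) :=
    (mul_le_mul' h8 le_rfl).trans (hstep 0)
  have h10 : 0 < W (u 0 - v 0) := zero_lt_iff.2 ((W.ne_zero_iff).2 (sub_ne_zero.2 (huv 0)))
  exact le_antisymm (hle 0 ζ h) (le_of_mul_le_mul_left h9 h10)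

theorem lochb : LOCHB := by
  intro K L Γ _ _ _ _ w d c H x y ζ₁ ζ₂ hd hwd hζ hc0 hH hcf hc hx hy hxy h1 h1' h2 h2' hne1 hne2
  obtain ⟨z, hz⟩ := hζ
  have hd0 : 0 < d := by omega
  set W : Valuation K Γ := w.comap (algebraMap K L) with hW
  have hWa : ∀ a : K, w (algebraMap K L a) = W a := fun _ => rfl
  have hcf' : ∀ i, W (H.coeff i) ≤ 1 := hcf
  have hc' : W c ≤ 1 := hc
  have hWc0 : W c ≠ 0 := (W.ne_zero_iff).2 hc0
  -- the degree is positive
  have hdeg : 1 ≤ H.natDegree := by
    by_contra hcon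
    have h0 : H.natDegree = 0 := by omega
    have hH1 : H = 1 := hH.natDegree_eq_zero.1 h0
    have hconst : ∀ t : K, fH d c H t = c := by
      intro t
      rw [fH, hH1, eval_one, mul_one]
    have hper : ∀ t : K, PerH d c H t → t = c := by
      rintro t ⟨n, hn, ht⟩
      obtain ⟨m, rfl⟩ := Nat.exists_eq_succ_of_ne_zero hn.ne'
      rw [Function.iterate_succ_apply', hconst] at ht
      exact ht.symm
    exact hxy ((hper x hx).trans (hper y hy).symm)
  obtain ⟨n1, hn1, hx⟩ := hx
  obtain ⟨n2, hn2, hy⟩ := hy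
  have hx' := it_mul hx n2
  have hy' := it_mul hy n1
  rw [Nat.mul_comm n2 n1] at hy'
  set N := n1 * n2 with hNdef
  have hN : 0 < N := Nat.mul_pos hn1 hn2
  have hsm : ∀ t : K, W t ≤ 1 → ∀ k, W ((fH d c H)^[k] t) ≤ 1 := by
    intro t ht k
    induction k with
    | zero => exact ht
    | succ k ih =>
      rw [Function.iterate_succ_apply']
      exact fH_small W hcf' hc' ih
  have hbg : ∀ t : K, (fH d c H)^[N] t = t → 1 < W t → ∀ k, W ((fH d c H)^[k] t) = W t := by
    intro t ht ht1 k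
    induction k with
    | zero => rfl
    | succ k ih =>
      rw [Function.iterate_succ_apply']
      rw [(per_val W hd hH hcf' hc' hWc0 hdeg hN (it_per ht k) (by rw [ih]; exact ht1)).2, ih]
  -- it is enough that both values are the same nonzero element
  suffices hs : ∃ R : Γ, R ≠ 0 ∧ ∀ ζ : L, ζ ^ d = 1 → ζ ≠ 1 →
      w (algebraMap K L x - ζ * algebraMap K L y) = R by
    obtain ⟨R, hR0, hR⟩ := hs
    rw [map_div₀, hR ζ₁ h1 h1', hR ζ₂ h2 h2', div_self hR0]
  rcases le_or_gt (W x) 1 with hX | hX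
  · rcases le_or_gt (W y) 1 with hY | hY
    · refine ⟨1, one_ne_zero, fun ζ hζ hζ1 => ?_⟩
      exact core_b w hd hcf hdeg le_rfl (by rw [one_pow, mul_one]; exact hc) hz hN hx' hy' hxy
        (hsm x hX) (hsm y hY) hζ hζ1
    · refine ⟨W y, (zero_lt_one.trans hY).ne', fun ζ hζ hζ1 => ?_⟩
      have e1 : w (ζ * algebraMap K L y) = W y := by
        rw [map_mul, val_root w hd0.ne' hζ, one_mul, hWa]
      rw [← e1]
      refine Valuation.map_sub_eq_of_lt_right w ?_
      rw [e1, hWa]
      exact hX.trans_lt hY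
  · rcases le_or_gt (W y) 1 with hY | hY
    · refine ⟨W x, (zero_lt_one.trans hX).ne', fun ζ hζ hζ1 => ?_⟩
      have e1 : w (ζ * algebraMap K L y) = W y := by
        rw [map_mul, val_root w hd0.ne' hζ, one_mul, hWa]
      rw [← hWa x]
      refine Valuation.map_sub_eq_of_lt_left w ?_
      rw [e1, hWa]
      exact hY.trans_lt hX
    · have k1 := (per_val W hd hH hcf' hc' hWc0 hdeg hN hx' hX).1
      have k2 := (per_val W hd hH hcf' hc' hWc0 hdeg hN hy' hY).1
      have hq : d * H.natDegree - 1 ≠ 0 := by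
        have : 2 * 1 ≤ d * H.natDegree := Nat.mul_le_mul hd hdeg
        omega
      have hyx : W y = W x := by
        have h3 : W y ^ (d * H.natDegree - 1) = W x ^ (d * H.natDegree - 1) :=
          mul_left_cancel₀ hWc0 (k2.trans k1.symm)
        exact (pow_left_inj₀ zero_le zero_le hq).1 h3
      refine ⟨W x, (zero_lt_one.trans hX).ne', fun ζ hζ hζ1 => ?_⟩
      refine core_b w hd hcf hdeg hX.le k1.le hz hN hx' hy' hxy (fun k => ?_) (fun k => ?_) hζ hζ1
      · exact (hbg x hx' hX k).le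
      · exact ((hbg y hy' hY k).trans hyx).le

end Pool.Agent.W2helper28.BT5
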